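import Mathlib

open Finset

namespace Pool.Agent.Results.MP_7ad8d2_an.MinInverseNorm

/-- The maximum absolute row sum of a square matrix, i.e. the norm induced by the sup norm. -/
noncomputable def infNorm {n : ℕ} (A : Matrix (Fin n) (Fin n) ℝ) : ℝ := ⨆ i, ∑ j, |A i j|

/-- The diagonal dominance `J_ii - ∑_{j ≠ i} J_ij` of row `i`. -/
def dom {n : ℕ} (J : Matrix (Fin n) (Fin n) ℝ) (i : Fin n) : ℝ :=
  J i i - ∑ j ∈ univ.erase i, J i j

/-- The class `𝒞_n(m, δ)`. -/
structure IsC {n : ℕ} (m δ : ℝ) (J : Matrix (Fin n) (Fin n) ℝ) : Prop where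
  symm : ∀ i j, J i j = J j i
  pos : ∀ i j, 0 < J i j
  off : ∀ i j, i ≠ j → J i j ≤ m
  dom_nonneg : ∀ i, 0 ≤ dom J i
  dom_le : ∀ i, dom J i ≤ δ

/-- The matrix `S(α, m) = α I + m 1 1ᵗ`. -/
def S (n : ℕ) (α m : ℝ) : Matrix (Fin n) (Fin n) ℝ := fun i j => (if i = j then α else 0) + m

variable {n : ℕ} {m δ : ℝ} {J : Matrix (Fin n) (Fin n) ℝ}

theorem mulVec_split (J : Matrix (Fin n) (Fin n) ℝ) (x : Fin n → ℝ) (i : Fin n) :
    (J.mulVec x) i = dom J i * x i + ∑ j ∈ univ.erase i, J i j * (x i + x j) := by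
  have h : (J.mulVec x) i = J i i * x i + ∑ j ∈ univ.erase i, J i j * x j := by
    simp only [Matrix.mulVec, dotProduct]
    rw [← Finset.add_sum_erase univ _ (mem_univ i)]
  rw [h, dom]
  simp only [mul_add, Finset.sum_add_distrib]
  rw [← Finset.sum_mul]
  ring

theorem quad (hJ : IsC m δ J) (x : Fin n → ℝ) :
    ∑ i, x i * (J.mulVec x) i = ∑ i, dom J i * x i ^ 2 +
      (∑ i, ∑ j ∈ univ.erase i, J i j * (x i + x j) ^ 2) / 2 := by
  have hswap : ∑ i, ∑ j ∈ univ.erase i, J i j * (x i * (x i + x j)) =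
      ∑ i, ∑ j ∈ univ.erase i, J i j * (x j * (x i + x j)) := by
    have e1 : ∀ f : Fin n → Fin n → ℝ, ∑ i, ∑ j ∈ univ.erase i, f i j =
        ∑ i, ∑ j, if i = j then 0 else f i j := by
      intro f
      refine Finset.sum_congr rfl fun i _ => ?_
      rw [← Finset.add_sum_erase univ _ (mem_univ i)]
      simp only [if_true, zero_add]
      refine Finset.sum_congr rfl fun j hj => ?_
      rw [if_neg (Finset.ne_of_mem_erase hj).symm]
    rw [e1, e1, Finset.sum_comm]
    refine Finset.sum_congr rfl fun i _ => Finset.sum_congr rfl fun j _ => ?_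
    by_cases h : i = j
    · subst h; simp
    · rw [if_neg h, if_neg (Ne.symm h), hJ.symm j i]; ring
  have h2 : ∑ i, ∑ j ∈ univ.erase i, J i j * (x i + x j) ^ 2 =
      ∑ i, ∑ j ∈ univ.erase i, J i j * (x i * (x i + x j)) +
      ∑ i, ∑ j ∈ univ.erase i, J i j * (x j * (x i + x j)) := by
    rw [← Finset.sum_add_distrib]
    refine Finset.sum_congr rfl fun i _ => ?_
    rw [← Finset.sum_add_distrib]
    exact Finset.sum_congr rfl fun j _ => by ring
  rw [h2, ← hswap, ← two_mul, mul_div_cancel_left₀ _ (by norm_num : (2:ℝ) ≠ 0),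
    ← Finset.sum_add_distrib]
  refine Finset.sum_congr rfl fun i _ => ?_
  rw [mulVec_split, mul_add, Finset.mul_sum]
  congr 1
  · ring
  · exact Finset.sum_congr rfl fun j _ => by ring

theorem quad_pos (hn : 3 ≤ n) (hJ : IsC m δ J) (x : Fin n → ℝ) (hx : x ≠ 0) :
    0 < ∑ i, x i * (J.mulVec x) i := by
  rw [quad hJ]
  have h1 : 0 ≤ ∑ i, dom J i * x i ^ 2 :=
    Finset.sum_nonneg fun i _ => mul_nonneg (hJ.dom_nonneg i) (sq_nonneg _)
  have h2 : ∀ i, 0 ≤ ∑ j ∈ univ.erase i, J i j * (x i + x j) ^ 2 := fun i =>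
    Finset.sum_nonneg fun j _ => mul_nonneg (hJ.pos i j).le (sq_nonneg _)
  have h3 : 0 < ∑ i, ∑ j ∈ univ.erase i, J i j * (x i + x j) ^ 2 := by
    by_contra hcon
    have h0 : ∑ i, ∑ j ∈ univ.erase i, J i j * (x i + x j) ^ 2 = 0 :=
      le_antisymm (not_lt.1 hcon) (Finset.sum_nonneg fun i _ => h2 i)
    have h4 : ∀ i j, i ≠ j → x i + x j = 0 := by
      intro i j hij
      have a := (Finset.sum_eq_zero_iff_of_nonneg (fun i _ => h2 i)).1 h0 i (mem_univ i)
      have b := (Finset.sum_eq_zero_iff_of_nonneg (fun j _ =>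
        mul_nonneg (hJ.pos i j).le (sq_nonneg _))).1 a j (by simp [Ne.symm hij])
      have c := (mul_eq_zero.1 b).resolve_left (hJ.pos i j).ne'
      exact pow_eq_zero_iff (two_ne_zero) |>.1 c
    apply hx
    ext i
    obtain ⟨j, hj⟩ : ∃ j : Fin n, j ≠ i := by
      have : Nontrivial (Fin n) := Fin.nontrivial_iff_two_le.2 (by omega)
      exact exists_ne i
    obtain ⟨k, hk⟩ : ∃ k : Fin n, k ∉ ({i, j} : Finset (Fin n)) := by
      by_contra hcon
      push Not at hcon
      have : (univ : Finset (Fin n)) ⊆ {i, j} := fun k _ => hcon k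
      have := Finset.card_le_card this
      have h2 : ({i, j} : Finset (Fin n)).card ≤ 2 := Finset.card_le_two
      simp at this
      omega
    simp only [Finset.mem_insert, Finset.mem_singleton, not_or] at hk
    have a := h4 i j hj.symm
    have b := h4 i k (Ne.symm hk.1)
    have c := h4 j k (Ne.symm hk.2)
    simp only [Pi.zero_apply]
    linarith
  linarith

theorem isUnit_det (hn : 3 ≤ n) (hJ : IsC m δ J) : IsUnit J.det := by
  rw [isUnit_iff_ne_zero]
  intro h0
  obtain ⟨v, hv, hv0⟩ := Matrix.exists_mulVec_eq_zero_iff.2 h0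
  have := quad_pos hn hJ v hv
  rw [hv0] at this
  simp at this

/-- The test vector of row `i`. -/
noncomputable def tv (J : Matrix (Fin n) (Fin n) ℝ) (α m w : ℝ) (i : Fin n) : Fin n → ℝ :=
  fun j => if j = i then 1 else w * (α + m) / (α + J i j) - 1

theorem key (hn : 3 ≤ n) (hm : 0 < m) (hδ : 0 ≤ δ) (hJ : IsC m δ J) {α D w ν : ℝ}
    (hα : α = m * (n - 2) + δ) (hD : D = α + 2 * m * (n - 1)) (hw : w = 2 * m * (n - 2) / D)
    (hν : ν = α * (α + m * n) / D) (i : Fin n) :
    (∀ j, |(J.mulVec (tv J α m w i)) j| ≤ ν) ∧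
    ((J.mulVec (tv J α m w i)) i = ν → dom J i = δ ∧ ∀ j, j ≠ i → J i j = m) ∧
    0 ≤ (J.mulVec (tv J α m w i)) i := by
  have hn' : (3 : ℝ) ≤ n := by exact_mod_cast hn
  have hα1 : m ≤ α := by rw [hα]; nlinarith
  have hα2 : m * (n - 2) ≤ α := by rw [hα]; linarith
  have hα0 : 0 < α := by linarith
  have hD0 : 0 < D := by rw [hD]; nlinarith
  have hw0 : 0 < w := by rw [hw]; apply div_pos _ hD0; nlinarith
  have hwD : w * D = 2 * m * (n - 2) := by rw [hw]; field_simp
  have hνD : ν * D = α * (α + m * n) := by rw [hν]; field_simp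
  have hν2 : ν = m * (n - 1) * w + δ := by
    have : ν * D = (m * (n - 1) * w + δ) * D := by
      rw [hνD, add_mul, mul_assoc, hwD, hD]
      have : δ = α - m * (n - 2) := by rw [hα]; ring
      rw [this]; ring
    exact mul_right_cancel₀ hD0.ne' this
  have hwα : w * (α + m) ≤ α := by
    have : (w * (α + m)) * D ≤ α * D := by
      rw [mul_right_comm, hwD, hD]
      nlinarith [mul_nonneg hm.le (sub_nonneg.2 hα1), mul_nonneg hα0.le (sub_nonneg.2 hα2),
        mul_nonneg hm.le (sub_nonneg.2 hα2)]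
    exact le_of_mul_le_mul_right this hD0
  set x := tv J α m w i with hx
  have xi : x i = 1 := by simp [hx, tv]
  have xj : ∀ j, j ≠ i → x j = w * (α + m) / (α + J i j) - 1 := fun j hj => by
    simp [hx, tv, hj]
  have den : ∀ j, 0 < α + J i j := fun j => by have := hJ.pos i j; linarith
  have x1 : ∀ j, j ≠ i → x j ≤ 0 := fun j hj => by
    rw [xj j hj, sub_nonpos, div_le_one (den j)]
    have := hJ.pos i j; linarith
  have x2 : ∀ j, j ≠ i → w - 1 ≤ x j := fun j hj => by
    rw [xj j hj]
    have : w ≤ w * (α + m) / (α + J i j) := by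
      rw [le_div_iff₀ (den j)]
      have := hJ.off i j hj.symm
      nlinarith
    linarith
  have t1 : ∀ j, j ≠ i → J i j * (1 + x j) ≤ w * m := fun j hj => by
    rw [xj j hj]
    have e : J i j * (1 + (w * (α + m) / (α + J i j) - 1)) =
        (J i j * (w * (α + m))) / (α + J i j) := by ring
    rw [e, div_le_iff₀ (den j)]
    have h1 := hJ.off i j hj.symm
    have h2 := hJ.pos i j
    nlinarith [mul_nonneg hw0.le (mul_nonneg hα0.le (sub_nonneg.2 h1))]
  have t2 : ∀ j, j ≠ i → J i j * (1 + x j) = w * m → J i j = m := fun j hj h => by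
    rw [xj j hj] at h
    have e : J i j * (1 + (w * (α + m) / (α + J i j) - 1)) =
        (J i j * (w * (α + m))) / (α + J i j) := by ring
    rw [e, div_eq_iff (den j).ne'] at h
    have : w * (α * (J i j - m)) = 0 := by linarith
    rcases mul_eq_zero.1 this with h | h
    · exact absurd h hw0.ne'
    · rcases mul_eq_zero.1 h with h | h
      · exact absurd h hα0.ne'
      · linarith
  have card1 : ((univ.erase i).card : ℝ) = n - 1 := by
    rw [Finset.card_erase_of_mem (mem_univ i)]
    simp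
    rw [Nat.cast_sub (by omega)]; simp
  -- row i
  have ri : (J.mulVec x) i = dom J i + ∑ j ∈ univ.erase i, J i j * (1 + x j) := by
    rw [mulVec_split, xi, mul_one]
  have si : ∑ j ∈ univ.erase i, J i j * (1 + x j) ≤ (n - 1) * (w * m) := by
    have := Finset.sum_le_card_nsmul (univ.erase i) (fun j => J i j * (1 + x j)) (w * m)
      (fun j hj => t1 j (Finset.ne_of_mem_erase hj))
    rw [nsmul_eq_mul, card1] at this
    exact this
  have si0 : 0 ≤ ∑ j ∈ univ.erase i, J i j * (1 + x j) := by
    refine Finset.sum_nonneg fun j hj => mul_nonneg (hJ.pos i j).le ?_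
    have := x2 j (Finset.ne_of_mem_erase hj)
    linarith
  have ri0 : 0 ≤ (J.mulVec x) i := by rw [ri]; exact add_nonneg (hJ.dom_nonneg i) si0
  have riν : (J.mulVec x) i ≤ ν := by
    rw [ri, hν2]; have := hJ.dom_le i; linarith
  refine ⟨?_, ?_, ri0⟩
  · intro j
    by_cases hj : j = i
    · subst hj
      rw [abs_of_nonneg ri0]; exact riν
    · have hij : i ∈ univ.erase j := by simp [Ne.symm hj]
      have card2 : (((univ.erase j).erase i).card : ℝ) = n - 2 := by
        rw [Finset.card_erase_of_mem hij, Finset.card_erase_of_mem (mem_univ j)]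
        simp
        rw [Nat.cast_sub (by omega), Nat.cast_sub (by omega)]; simp; ring
      have rj : (J.mulVec x) j = dom J j * x j + (J j i * (x j + 1) +
          ∑ k ∈ (univ.erase j).erase i, J j k * (x j + x k)) := by
        rw [mulVec_split, ← Finset.add_sum_erase _ _ hij, xi]
      have sj1 : ∑ k ∈ (univ.erase j).erase i, J j k * (x j + x k) ≤ 0 := by
        refine Finset.sum_nonpos fun k hk => ?_
        have := x1 k (Finset.ne_of_mem_erase hk)
        have := x1 j hj
        exact mul_nonpos_of_nonneg_of_nonpos (hJ.pos j k).le (by linarith)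
      have sj2 : (n - 2) * (m * (x j + (w - 1))) ≤
          ∑ k ∈ (univ.erase j).erase i, J j k * (x j + x k) := by
        have := Finset.card_nsmul_le_sum ((univ.erase j).erase i)
          (fun k => J j k * (x j + x k)) (m * (x j + (w - 1))) (fun k hk => by
            have h1 := x1 k (Finset.ne_of_mem_erase hk)
            have h2 := x1 j hj
            have h3 := x2 k (Finset.ne_of_mem_erase hk)
            have h4 : k ≠ j := by
              rintro rfl
              simp at hk
            have h5 := hJ.off j k h4.symm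
            have h6 := hJ.pos j k
            nlinarith)
        rw [nsmul_eq_mul, card2] at this
        exact this
      have q1 := t1 j hj
      have q2 : J j i = J i j := hJ.symm j i
      have q3 : 0 ≤ J i j * (1 + x j) := mul_nonneg (hJ.pos i j).le (by
        have := x2 j hj; linarith)
      rw [abs_le, rj, q2]
      have q4 := x1 j hj
      have q5 := hJ.dom_le j
      have q6 := hJ.dom_nonneg j
      constructor
      · have e1 : (α + J i j) * (1 + x j) = w * (α + m) := by
          rw [xj j hj]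
          have := (den j).ne'
          field_simp
          ring
        have e2 : δ * x j ≤ dom J j * x j := by nlinarith
        have e3 : -ν = δ * x j + (J i j * (x j + 1) + (n - 2) * (m * (x j + (w - 1)))) := by
          have e4 : δ * x j + (J i j * (x j + 1) + (n - 2) * (m * (x j + (w - 1)))) =
              (α + J i j) * (1 + x j) - α - m * (n - 2) + m * (n - 2) * w := by
            rw [hα]; ring
          rw [e4, e1, hν2]
          have e5 : w * D = w * α + 2 * m * (n - 1) * w := by rw [hD]; ring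
          have e6 : δ = α - m * (n - 2) := by rw [hα]; ring
          rw [e6]
          linarith [hwD]
        linarith
      · have e2 : dom J j * x j ≤ 0 := mul_nonpos_of_nonneg_of_nonpos q6 q4
        have e3 : w * m ≤ ν := by
          rw [hν2]
          nlinarith [mul_pos hw0 hm]
        have e4 : J i j * (x j + 1) = J i j * (1 + x j) := by ring
        linarith
  · intro h
    rw [ri, hν2] at h
    have hd := hJ.dom_le i
    have h1 : dom J i = δ := by linarith
    refine ⟨h1, fun j hj => t2 j hj ?_⟩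
    have h2 : ∑ j ∈ univ.erase i, J i j * (1 + x j) = ∑ j ∈ univ.erase i, w * m := by
      rw [Finset.sum_const, nsmul_eq_mul, card1]
      linarith
    exact (Finset.sum_eq_sum_iff_of_le (fun j hj => t1 j (Finset.ne_of_mem_erase hj))).1 h2 j
      (by simp [hj])

theorem row_bound (hn : 3 ≤ n) (hm : 0 < m) (hδ : 0 ≤ δ) (hJ : IsC m δ J) {α b : ℝ}
    (hα : α = m * (n - 2) + δ) (hb : b = (α + 2 * m * (n - 1)) / (α * (α + m * n))) (i : Fin n) :
    b ≤ ∑ j, |J⁻¹ i j| ∧ (∑ j, |J⁻¹ i j| ≤ b → dom J i = δ ∧ ∀ j, j ≠ i → J i j = m) := by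
  have hn' : (3 : ℝ) ≤ n := by exact_mod_cast hn
  have hα0 : 0 < α := by rw [hα]; nlinarith
  have hD0 : 0 < α + 2 * m * (n - 1) := by nlinarith
  have hN0 : 0 < α * (α + m * n) := by positivity
  set ν : ℝ := α * (α + m * n) / (α + 2 * m * (n - 1)) with hν
  have hν0 : 0 < ν := div_pos hN0 hD0
  have hbν : b * ν = 1 := by rw [hb, hν]; field_simp
  obtain ⟨k1, k2, k3⟩ := key hn hm hδ hJ hα rfl rfl hν i
  set x := tv J α m (2 * m * (n - 2) / (α + 2 * m * (n - 1))) i with hx
  have hdet := isUnit_det hn hJ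
  have hKJ : J⁻¹.mulVec (J.mulVec x) = x := by
    rw [Matrix.mulVec_mulVec, Matrix.nonsing_inv_mul _ hdet, Matrix.one_mulVec]
  have h1 : ∑ j, J⁻¹ i j * (J.mulVec x) j = 1 := by
    have := congrFun hKJ i
    rw [show x i = 1 by simp [hx, tv]] at this
    exact this
  have h2 : (1 : ℝ) ≤ ∑ j, |J⁻¹ i j| * |(J.mulVec x) j| := by
    calc (1 : ℝ) = |∑ j, J⁻¹ i j * (J.mulVec x) j| := by rw [h1, abs_one]
      _ ≤ ∑ j, |J⁻¹ i j * (J.mulVec x) j| := Finset.abs_sum_le_sum_abs _ _
      _ = _ := by simp only [abs_mul]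
  have h3 : ∀ j, |J⁻¹ i j| * |(J.mulVec x) j| ≤ |J⁻¹ i j| * ν := fun j =>
    mul_le_mul_of_nonneg_left (k1 j) (abs_nonneg _)
  have h4 : (1 : ℝ) ≤ (∑ j, |J⁻¹ i j|) * ν := by
    rw [Finset.sum_mul]; exact h2.trans (Finset.sum_le_sum fun j _ => h3 j)
  refine ⟨?_, fun hle => ?_⟩
  · have : b * ν ≤ (∑ j, |J⁻¹ i j|) * ν := by rw [hbν]; exact h4
    exact le_of_mul_le_mul_right this hν0
  · apply k2
    by_contra hne
    have hlt : |(J.mulVec x) i| < ν := lt_of_le_of_ne (k1 i) (by rwa [abs_of_nonneg k3])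
    have hKii : 0 < |J⁻¹ i i| := by
      rw [abs_pos]
      set y := J⁻¹.mulVec (Pi.single i 1) with hy
      have hJy : J.mulVec y = Pi.single i 1 := by
        rw [hy, Matrix.mulVec_mulVec, Matrix.mul_nonsing_inv _ hdet, Matrix.one_mulVec]
      have hy0 : y ≠ 0 := by
        intro h0
        rw [h0, Matrix.mulVec_zero] at hJy
        have := congrFun hJy i
        simp at this
      have := quad_pos hn hJ y hy0
      rw [hJy] at this
      simp [Pi.single_apply] at this
      have hyi : y i = J⁻¹ i i := by simp [hy]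
      rw [← hyi]
      exact this.ne'
    have h5 : ∑ j, |J⁻¹ i j| * |(J.mulVec x) j| < ∑ j, |J⁻¹ i j| * ν :=
      Finset.sum_lt_sum (fun j _ => h3 j) ⟨i, mem_univ i, mul_lt_mul_of_pos_left hlt hKii⟩
    rw [← Finset.sum_mul] at h5
    have h6 : (∑ j, |J⁻¹ i j|) * ν ≤ b * ν := mul_le_mul_of_nonneg_right hle hν0.le
    linarith

theorem rowSum_le_infNorm (A : Matrix (Fin n) (Fin n) ℝ) (i : Fin n) :
    ∑ j, |A i j| ≤ infNorm A :=
  le_ciSup (f := fun i => ∑ j, |A i j|) (Set.finite_range _).bddAbove i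

theorem infNorm_S_inv (hn : 3 ≤ n) (hm : 0 < m) {α : ℝ} (hα : 0 < α) :
    infNorm (S n α m)⁻¹ = (α + 2 * m * (n - 1)) / (α * (α + m * n)) := by
  have hn' : (3 : ℝ) ≤ n := by exact_mod_cast hn
  have hden : 0 < α + m * n := by positivity
  set T : Matrix (Fin n) (Fin n) ℝ :=
    fun i j => ((if i = j then 1 else 0) - m / (α + m * n)) / α with hT
  have hinv : (S n α m)⁻¹ = T := by
    apply Matrix.inv_eq_right_inv
    ext i j
    rw [Matrix.mul_apply]
    have e : ∀ k, S n α m i k * T k j = (if i = k then α * T k j else 0) + m * T k j := by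
      intro k
      simp only [S]
      split_ifs <;> ring
    simp only [e, Finset.sum_add_distrib, Finset.sum_ite_eq, mem_univ, if_true]
    rw [← Finset.mul_sum]
    have e2 : ∑ k, T k j = (1 - n * (m / (α + m * n))) / α := by
      simp only [hT]
      rw [← Finset.sum_div, Finset.sum_sub_distrib]
      simp
    rw [e2]
    simp only [hT, Matrix.one_apply]
    split_ifs <;> field_simp <;> ring
  have hrow : ∀ i, ∑ j, |T i j| = (α + 2 * m * (n - 1)) / (α * (α + m * n)) := by
    intro i
    rw [← Finset.add_sum_erase univ _ (mem_univ i)]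
    have e1 : |T i i| = (α + m * (n - 1)) / (α * (α + m * n)) := by
      have : T i i = (α + m * (n - 1)) / (α * (α + m * n)) := by
        simp only [hT, if_true]; field_simp; ring
      rw [this, abs_of_nonneg]
      apply div_nonneg _ (by positivity)
      nlinarith
    have e2 : ∀ j ∈ univ.erase i, |T i j| = m / (α * (α + m * n)) := by
      intro j hj
      have : T i j = -(m / (α * (α + m * n))) := by
        simp only [hT, if_neg (Finset.ne_of_mem_erase hj).symm]; field_simp; ring
      rw [this, abs_neg, abs_of_nonneg (by positivity)]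
    rw [e1, Finset.sum_congr rfl e2, Finset.sum_const, nsmul_eq_mul,
      Finset.card_erase_of_mem (mem_univ i)]
    simp
    rw [Nat.cast_sub (by omega)]
    field_simp
    push_cast
    ring
  rw [hinv, infNorm]
  have : Nonempty (Fin n) := ⟨⟨0, by omega⟩⟩
  simp only [hrow, ciSup_const]

/-- Every matrix `J` in `𝒞_n(m, δ)` (`n ≥ 3`, `m > 0`, `δ ≥ 0`) is invertible, the norm of its
inverse is at least that of `S(α, m)`, `α = m (n - 2) + δ`, and equality holds exactly for
`J = S(α, m)`. -/
theorem result (n : ℕ) (hn : 3 ≤ n) (m δ : ℝ) (hm : 0 < m) (hδ : 0 ≤ δ)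
    (J : Matrix (Fin n) (Fin n) ℝ) (hJ : IsC m δ J) (α : ℝ) (hα : α = m * (n - 2) + δ) :
    IsUnit J ∧ infNorm (S n α m)⁻¹ = (α + 2 * m * (n - 1)) / (α * (α + m * n)) ∧
    (α + 2 * m * (n - 1)) / (α * (α + m * n)) ≤ infNorm J⁻¹ ∧
    (infNorm J⁻¹ = (α + 2 * m * (n - 1)) / (α * (α + m * n)) ↔ J = S n α m) := by
  have hn' : (3 : ℝ) ≤ n := by exact_mod_cast hn
  have hα0 : 0 < α := by rw [hα]; nlinarith
  refine ⟨(Matrix.isUnit_iff_isUnit_det _).2 (isUnit_det hn hJ), infNorm_S_inv hn hm hα0,
    ?_, ?_, ?_⟩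
  · exact (row_bound hn hm hδ hJ hα rfl ⟨0, by omega⟩).1.trans (rowSum_le_infNorm _ _)
  · intro h
    have hall : ∀ i, dom J i = δ ∧ ∀ j, j ≠ i → J i j = m := fun i =>
      (row_bound hn hm hδ hJ hα rfl i).2 ((rowSum_le_infNorm _ _).trans h.le)
    ext i j
    by_cases hij : i = j
    · subst hij
      have h1 := (hall i).1
      have h2 : ∑ j ∈ univ.erase i, J i j = (n - 1) * m := by
        rw [Finset.sum_congr rfl fun j hj => (hall i).2 j (Finset.ne_of_mem_erase hj),
          Finset.sum_const, nsmul_eq_mul, Finset.card_erase_of_mem (mem_univ i)]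
        simp
        left
        rw [Nat.cast_sub (by omega)]; simp
      rw [dom, h2] at h1
      simp only [S, if_true]
      rw [hα]; linarith
    · rw [(hall i).2 j (Ne.symm hij)]
      simp [S, hij]
  · intro h
    rw [h]
    exact infNorm_S_inv hn hm hα0

end Pool.Agent.Results.MP_7ad8d2_an.MinInverseNorm
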